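import Pool.Agent.Helper35.PQF.St

/-!
# Project PM (MP_d112a4_gt), module EN: entropy and adapted ultrafilter
-/

set_option autoImplicit false

open Filter Topology Matrix Set MeasureTheory

namespace Pool.Agent.Helper84.PM

open Pool.Agent.Helper35.PM

theorem en : St_EN := by
  intro Γ _ ρ c C T₀ hc hC hlow hup
  obtain ⟨F, hF⟩ : ∃ F : ℝ → ℝ, F = fun T : ℝ => Real.log (num ρ T) / T := ⟨_, rfl⟩
  have hent : ent ρ = limsup F atTop := by
    rw [hF]
    rfl
  have hN0 : ∀ T : ℝ, T₀ ≤ T → (0 : ℝ) < (num ρ T : ℝ) := fun T hT =>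
    (Real.exp_pos _).trans_le (hlow T hT)
  have hFlow : ∀ᶠ T : ℝ in atTop, c ≤ F T := by
    filter_upwards [eventually_ge_atTop T₀, eventually_gt_atTop (0 : ℝ)] with T hT hT0
    rw [hF]
    show c ≤ Real.log (num ρ T) / T
    rw [le_div_iff₀ hT0]
    exact (Real.le_log_iff_exp_le (hN0 T hT)).2 (hlow T hT)
  have hFup : ∀ᶠ T : ℝ in atTop, F T ≤ 2 + Real.log C / T := by
    filter_upwards [eventually_ge_atTop T₀, eventually_gt_atTop (0 : ℝ)] with T hT hT0
    rw [hF]
    show Real.log (num ρ T) / T ≤ 2 + Real.log C / T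
    have h1 : Real.log (num ρ T) ≤ Real.log (C * Real.exp (2 * T)) :=
      Real.log_le_log (hN0 T hT) (hup T hT0.le)
    rw [Real.log_mul hC.ne' (Real.exp_pos _).ne', Real.log_exp] at h1
    rw [div_le_iff₀ hT0, add_mul, div_mul_cancel₀ _ hT0.ne']
    linarith
  have hlim : Tendsto (fun T : ℝ => 2 + Real.log C / T) atTop (𝓝 2) := by
    have h1 : Tendsto (fun T : ℝ => Real.log C / T) atTop (𝓝 0) :=
      Tendsto.div_atTop tendsto_const_nhds tendsto_id
    simpa using h1.const_add 2
  have hFle : ∀ ε : ℝ, 0 < ε → ∀ᶠ T : ℝ in atTop, F T ≤ 2 + ε := by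
    intro ε hε
    filter_upwards [hFup, hlim.eventually (gt_mem_nhds (show (2 : ℝ) < 2 + ε by linarith))]
      with T h1 h2
    exact h1.trans h2.le
  have hbdd : IsBoundedUnder (· ≤ ·) atTop F := ⟨2 + 1, eventually_map.2 (hFle 1 one_pos)⟩
  have hbdd' : IsBoundedUnder (· ≥ ·) atTop F := ⟨c, eventually_map.2 hFlow⟩
  have hcob : IsCoboundedUnder (· ≤ ·) atTop F := hbdd'.isCoboundedUnder_le
  have hc_le : c ≤ ent ρ := by
    rw [hent]
    exact le_limsup_of_frequently_le hFlow.frequently hbdd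
  have hle2 : ent ρ ≤ 2 := by
    rw [hent]
    apply le_of_forall_pos_le_add
    intro ε hε
    exact limsup_le_of_le hcob (hFle ε hε)
  have hevlt : ∀ ε : ℝ, 0 < ε → ∀ᶠ T in atTop, F T < ent ρ + ε := by
    intro ε hε
    apply eventually_lt_of_limsup_lt _ hbdd
    rw [← hent]
    linarith
  refine ⟨hc.trans_le hc_le, hle2, ?_, ?_, ?_⟩
  · refine tendsto_atTop_mono' atTop ?_
      (Real.tendsto_exp_atTop.comp (tendsto_id.const_mul_atTop hc))
    filter_upwards [eventually_ge_atTop T₀] with T hT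
    exact hlow T hT
  · intro ε hε
    have h1 := hevlt ε hε
    rw [hF] at h1
    exact h1.mono fun T hT => le_of_lt hT
  · have hcl : MapClusterPt (ent ρ) atTop F := by
      rw [mapClusterPt_iff_frequently]
      intro s hs
      obtain ⟨ε, hε, hball⟩ := Metric.mem_nhds_iff.1 hs
      have h1 : ∃ᶠ T in atTop, ent ρ - ε < F T := by
        apply frequently_lt_of_lt_limsup hcob
        rw [← hent]
        linarith
      refine (h1.and_eventually (hevlt ε hε)).mono ?_
      intro T hT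
      apply hball
      rw [Metric.mem_ball, Real.dist_eq, abs_lt]
      constructor <;> linarith [hT.1, hT.2]
    obtain ⟨U, hU, hU2⟩ := mapClusterPt_iff_ultrafilter.1 hcl
    refine ⟨U, hU, ?_⟩
    rw [hF] at hU2
    exact hU2

end Pool.Agent.Helper84.PM
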