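import Pool.Agent.Helper62.PM.St5

/-! Project PM, module PE: passage to the limit in the flattening. -/

set_option autoImplicit false

open MeasureTheory Metric Set Filter Topology
open scoped RealInnerProductSpace ContDiff

namespace Pool.Agent.Helper84.PM

open Pool.Agent.Helper62.PM
open Pool.Agent.Helper62.Mink

private lemma cont_sub {n : ℕ} {e v : E n} {φ : E n → ℝ} (hC : StC) (hev : ON (e, v)) (hφ : S1 φ) :
    Continuous fun w : sphere (0 : E n) 1 => Lop e v φ (w : E n) := by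
  have h := (hC n e v φ hev hφ).2.2
  exact h.comp_continuous continuous_subtype_val fun w => w.2

private lemma lop_int {n : ℕ} {e v : E n} {φ : E n → ℝ} (hC : StC) (hev : ON (e, v)) (hφ : S1 φ)
    (μ : Measure (sphere (0 : E n) 1)) [IsFiniteMeasure μ] :
    Integrable (fun w : sphere (0 : E n) 1 => Lop e v φ (w : E n)) μ := by
  have hc := cont_sub hC hev hφ
  exact hc.integrable_of_hasCompactSupport (HasCompactSupport.of_compactSpace _)

private lemma ms {n : ℕ} (a : E n) : MeasurableSet {w : sphere (0 : E n) 1 | (w : E n) ≠ a} := by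
  have h : IsOpen {w : sphere (0 : E n) 1 | (w : E n) ≠ a} :=
    isOpen_ne.preimage continuous_subtype_val
  exact h.measurableSet

private lemma lim_int {n : ℕ} {e v : E n} {F : ℝ → ℝ} {φ : E n → ℝ} {q : E n} {σ ε C : ℝ}
    (hC : StC) (hev : ON (e, v))
    (μ : Measure (sphere (0 : E n) 1)) [IsFiniteMeasure μ]
    (hs : ∀ c : ℝ, 0 < c → S1 (fc F φ (σ • e) q ε c))
    (hb : ∀ c : ℝ, 0 < c → c ≤ 1 → ∀ w : E n, ‖w‖ = 1 →
      |Lop e v (fc F φ (σ • e) q ε c) w| ≤ C)
    (h1 : ∀ w : E n, ‖w‖ = 1 → w ≠ σ • e → ∃ c₀ : ℝ, 0 < c₀ ∧ ∀ c : ℝ, 0 < c → c < c₀ →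
      Lop e v (fc F φ (σ • e) q ε c) w = Lop e v φ w + ε)
    (h2 : ∀ c : ℝ, 0 < c → Lop e v (fc F φ (σ • e) q ε c) (σ • e) = 0) :
    Tendsto (fun j : ℕ => ∫ w : sphere (0 : E n) 1,
        Lop e v (fc F φ (σ • e) q ε (1 / ((j : ℝ) + 2))) (w : E n) ∂μ) atTop
      (𝓝 (∫ w : sphere (0 : E n) 1 in {w | (w : E n) ≠ σ • e}, (Lop e v φ (w : E n) + ε) ∂μ)) := by
  have hcp : ∀ j : ℕ, (0 : ℝ) < 1 / ((j : ℝ) + 2) := fun j => by positivity
  have hc1 : ∀ j : ℕ, 1 / ((j : ℝ) + 2) ≤ 1 := fun j => by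
    rw [div_le_one (by positivity)]
    have : (0 : ℝ) ≤ (j : ℝ) := by positivity
    linarith
  have hc0 : Tendsto (fun j : ℕ => 1 / ((j : ℝ) + 2)) atTop (𝓝 0) := by
    have h := tendsto_one_div_add_atTop_nhds_zero_nat (𝕜 := ℝ)
    have h' := (tendsto_add_atTop_iff_nat 1).2 h
    refine h'.congr fun j => ?_
    push_cast
    ring_nf
  rw [← integral_indicator (ms (σ • e))]
  refine tendsto_integral_of_dominated_convergence (fun _ => C)
    (fun j => (cont_sub hC hev (hs _ (hcp j))).aestronglyMeasurable) (integrable_const C)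
    (fun j => Eventually.of_forall fun w => ?_) (Eventually.of_forall fun w => ?_)
  · rw [Real.norm_eq_abs]
    exact hb _ (hcp j) (hc1 j) w (mem_sphere_zero_iff_norm.1 w.2)
  · by_cases hw : (w : E n) ≠ σ • e
    · have hmem : w ∈ {w : sphere (0 : E n) 1 | (w : E n) ≠ σ • e} := hw
      rw [indicator_of_mem hmem]
      obtain ⟨c₀, hc₀, hc⟩ := h1 w (mem_sphere_zero_iff_norm.1 w.2) hw
      refine tendsto_const_nhds.congr' ?_
      filter_upwards [hc0.eventually (gt_mem_nhds hc₀)] with j hj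
      exact (hc _ (hcp j) hj).symm
    · have hmem : w ∉ {w : sphere (0 : E n) 1 | (w : E n) ≠ σ • e} := hw
      rw [indicator_of_notMem hmem]
      rw [not_not] at hw
      refine tendsto_const_nhds.congr fun j => ?_
      rw [hw]
      exact (h2 _ (hcp j)).symm

private lemma split {n : ℕ} {e v : E n} {φ : E n → ℝ} (hC : StC) (hev : ON (e, v)) (hφ : S1 φ)
    (a : E n) (ε : ℝ) (μ : Measure (sphere (0 : E n) 1)) [IsFiniteMeasure μ] :
    ∫ w : sphere (0 : E n) 1 in {w | (w : E n) ≠ a}, (Lop e v φ (w : E n) + ε) ∂μ =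
      ∫ w : sphere (0 : E n) 1 in {w | (w : E n) ≠ a}, Lop e v φ (w : E n) ∂μ +
        μ.real {w : sphere (0 : E n) 1 | (w : E n) ≠ a} * ε := by
  rw [integral_add (lop_int hC hev hφ μ).integrableOn (integrable_const ε), integral_const,
    smul_eq_mul, measureReal_restrict_apply MeasurableSet.univ, univ_inter]

theorem hPE : StC -> StD -> StPA -> StPB -> StPC -> StPD -> StPE := by
  intro hC hD hPA hPB hPC hPD n e v P N hev hP hN hyp σ hσ φ hφ hφs
  haveI := hP
  haveI := hN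
  obtain ⟨F, hF⟩ := hPA
  -- the support point
  obtain ⟨K, hK⟩ := exists_body hφs
  obtain ⟨q, hq, hqe⟩ := exists_supp_eq K (σ • e)
  have hPt : Pt φ (σ • e) q :=
    ⟨fun x => by rw [← hK]; exact inner_le_supp K hq x, by rw [hqe, hK]⟩
  have key : ∀ ε : ℝ, 0 < ε →
      ∫ w : sphere (0 : E n) 1 in {w | (w : E n) ≠ σ • e}, Lop e v φ (w : E n) ∂N ≤
        ∫ w : sphere (0 : E n) 1 in {w | (w : E n) ≠ σ • e}, Lop e v φ (w : E n) ∂P +
          ε * P.real {w : sphere (0 : E n) 1 | (w : E n) ≠ σ • e} := by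
    intro ε hε
    have hD' := hD n
    have hn1 : S1 (fun z : E n => ‖z‖) := hD'.2.2.2.1.1
    have hn2 : S1 (fun z : E n => ε * ‖z‖) := (hD'.2.1 ε _ hn1).1
    have hh : S1 (fun z : E n => φ z + ε * ‖z‖) := (hD'.1 _ _ hφ hn2).1
    have hhs : Sublinear (fun z : E n => φ z + ε * ‖z‖) := by
      constructor
      · intro c hc x
        show φ (c • x) + ε * ‖c • x‖ = c * (φ x + ε * ‖x‖)
        rw [hφs.pos_hom c hc x, norm_smul, Real.norm_eq_abs, abs_of_nonneg hc]
        ring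
      · intro x y
        show φ (x + y) + ε * ‖x + y‖ ≤ (φ x + ε * ‖x‖) + (φ y + ε * ‖y‖)
        have h1 := hφs.add_le x y
        have h2 := mul_le_mul_of_nonneg_left (norm_add_le x y) hε.le
        linarith
    have hfc : ∀ c : ℝ, 0 < c → S1 (fc F φ (σ • e) q ε c) ∧ Sublinear (fc F φ (σ • e) q ε c) :=
      fun c hc => hPB n F _ (q + (ε + c) • (σ • e)) (c / 2) hF hh hhs (by positivity)
    obtain ⟨h1, h2⟩ := hPC n e v σ F φ q ε hev hσ hF hφ hPt hε
    obtain ⟨C, hCb⟩ := hPD n e v σ F φ q ε hev hσ hF hφ hPt hε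
    have tN := lim_int hC hev N (fun c hc => (hfc c hc).1) hCb h1 h2
    have tP := lim_int hC hev P (fun c hc => (hfc c hc).1) hCb h1 h2
    have hle := le_of_tendsto_of_tendsto' tN tP fun j =>
      hyp _ (hfc (1 / ((j : ℝ) + 2)) (by positivity)).1 (hfc (1 / ((j : ℝ) + 2)) (by positivity)).2
    rw [split hC hev hφ (σ • e) ε N, split hC hev hφ (σ • e) ε P] at hle
    have h3 : 0 ≤ N.real {w : sphere (0 : E n) 1 | (w : E n) ≠ σ • e} * ε :=
      mul_nonneg measureReal_nonneg hε.le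
    have h4 : P.real {w : sphere (0 : E n) 1 | (w : E n) ≠ σ • e} * ε =
        ε * P.real {w : sphere (0 : E n) 1 | (w : E n) ≠ σ • e} := mul_comm _ _
    linarith
  exact le_of_eps measureReal_nonneg key

end Pool.Agent.Helper84.PM
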