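import Pool.Agent.Helper62.PM.St6

/-! Project PM, module TR2: the trace is at least the sum over two orthonormal directions. -/

set_option autoImplicit false

open MeasureTheory Metric Set Filter Topology
open scoped RealInnerProductSpace ContDiff

namespace Pool.Agent.Helper84.PM6

open Pool.Agent.Helper62.PM6
open Pool.Agent.Helper62.Mink

private lemma term {n : ℕ} {h : E n → ℝ} (hC : ContDiffOn ℝ ∞ h {0}ᶜ) {w : E n} (hw : w ≠ 0)
    (u v b : E n) (s t : ℝ) :
    Bf h w (b + (-s) • u + (-t) • v) (b + (-s) • u + (-t) • v) =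
      Bf h w b b - 2 * (s * Bf h w b u) - 2 * (t * Bf h w b v) + s ^ 2 * Bf h w u u +
        2 * (s * t) * Bf h w u v + t ^ 2 * Bf h w v v := by
  simp only [Bf_add_left, Bf_add_right, Bf_smul_left, Bf_smul_right]
  rw [Bf_symm hC hw u b, Bf_symm hC hw v b, Bf_symm hC hw v u]
  ring

theorem hTR2 : StTR2 := by
  intro n h hh hC w hw u v hu hv huv
  classical
  set b := EuclideanSpace.basisFun (Fin n) ℝ with hb
  have hLap : Lap h w = ∑ i : Fin n, Bf h w (b i) (b i) := by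
    unfold Lap
    exact Finset.sum_congr rfl fun i _ => D2_eq_Bf hC hw _
  have hβ : ∀ p : E n, ∑ i : Fin n, (inner ℝ (b i) p : ℝ) * Bf h w (b i) p = Bf h w p p := by
    intro p
    have hp : p = ∑ i : Fin n, (inner ℝ (b i) p : ℝ) • b i := (b.sum_repr' p).symm
    have : Bf h w p p = Bf h w (∑ i : Fin n, (inner ℝ (b i) p : ℝ) • b i) p := by rw [← hp]
    rw [this]
    unfold Bf
    simp [map_sum]
  have hu2 : ∑ i : Fin n, (inner ℝ (b i) u : ℝ) ^ 2 = 1 := by
    rw [b.sum_sq_inner_right, hu, one_pow]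
  have hv2 : ∑ i : Fin n, (inner ℝ (b i) v : ℝ) ^ 2 = 1 := by
    rw [b.sum_sq_inner_right, hv, one_pow]
  have huv2 : ∑ i : Fin n, (inner ℝ (b i) u : ℝ) * (inner ℝ (b i) v : ℝ) = 0 := by
    rw [← huv, ← b.sum_inner_mul_inner u v]
    exact Finset.sum_congr rfl fun i _ => by rw [real_inner_comm u (b i)]
  have key : 0 ≤ ∑ i : Fin n,
      Bf h w (b i + (-(inner ℝ (b i) u : ℝ)) • u + (-(inner ℝ (b i) v : ℝ)) • v)
        (b i + (-(inner ℝ (b i) u : ℝ)) • u + (-(inner ℝ (b i) v : ℝ)) • v) := by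
    refine Finset.sum_nonneg fun i _ => ?_
    have := D2_nonneg hh hC (b i + (-(inner ℝ (b i) u : ℝ)) • u + (-(inner ℝ (b i) v : ℝ)) • v) hw
    rwa [D2_eq_Bf hC hw] at this
  simp only [term hC hw] at key
  have hs : ∑ i : Fin n, (Bf h w (b i) (b i) - 2 * ((inner ℝ (b i) u : ℝ) * Bf h w (b i) u) -
      2 * ((inner ℝ (b i) v : ℝ) * Bf h w (b i) v) + (inner ℝ (b i) u : ℝ) ^ 2 * Bf h w u u +
        2 * ((inner ℝ (b i) u : ℝ) * (inner ℝ (b i) v : ℝ)) * Bf h w u v +
          (inner ℝ (b i) v : ℝ) ^ 2 * Bf h w v v) =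
      Lap h w - 2 * Bf h w u u - 2 * Bf h w v v + 1 * Bf h w u u + 2 * 0 * Bf h w u v +
        1 * Bf h w v v := by
    rw [Finset.sum_add_distrib, Finset.sum_add_distrib, Finset.sum_add_distrib,
      Finset.sum_sub_distrib, Finset.sum_sub_distrib, ← Finset.mul_sum, ← Finset.mul_sum,
      ← Finset.sum_mul, ← Finset.sum_mul, ← Finset.sum_mul, ← Finset.mul_sum, hβ, hβ, hu2, hv2,
      huv2, ← hLap]
  rw [hs] at key
  linarith

end Pool.Agent.Helper84.PM6
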